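import Pool.Agent.MP_dbd6a6_co.H70.Spec

/-!
Module D2: the small range of `y`, from the location of the zeros and the core lemma.
-/

open Finset Real

noncomputable section

namespace Pool.Agent.MP_dbd6a6_co.H53

open H92 H70

lemma sg_bd {a a₀ s k : ℝ} (h0 : 2 ≤ a₀) (ha : a₀ ≤ a) (hs : 1.25 ≤ s * (a₀ - 1.501))
    (hk : 1.25 * a₀ ≤ k * (a₀ - 1.501)) : 0 < sg a ∧ sg a ≤ s ∧ a * sg a ≤ k := by
  have hu : 0 < a - 1.501 := by linarith
  have hs0 : 0 < s := by nlinarith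
  have hk0 : 1.25 ≤ k := by nlinarith
  unfold sg
  refine ⟨by positivity, ?_, ?_⟩
  · rw [div_le_iff₀ hu]; nlinarith
  · rw [← mul_div_assoc, div_le_iff₀ hu]; nlinarith

lemma kp_bd {a s k c m : ℝ} (ha : 0 ≤ a) (h : 0 < sg a ∧ sg a ≤ s ∧ a * sg a ≤ k)
    (hc : (0.21 * k ^ 2 + 0.01 * s ^ 2) / 2 ≤ c) (hc1 : c < 1) (hm : 1 ≤ m * (1 - c)) :
    (0.21 * a ^ 2 + 0.01) * sg a ^ 2 / 2 ≤ c ∧ kp a ≤ m * sg a + 0.001 ∧
      a * sg a ^ 2 ≤ k * s := by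
  obtain ⟨h1, h2, h3⟩ := h
  have h4 : 0 ≤ a * sg a := by positivity
  have e1 : (a * sg a) ^ 2 ≤ k ^ 2 := by gcongr
  have e2 : sg a ^ 2 ≤ s ^ 2 := by gcongr
  have e3 : (0.21 * a ^ 2 + 0.01) * sg a ^ 2 / 2 ≤ c := by nlinarith
  have hm0 : 0 < m := by nlinarith
  refine ⟨e3, ?_, ?_⟩
  · unfold kp
    have : sg a / (1 - (0.21 * a ^ 2 + 0.01) * sg a ^ 2 / 2) ≤ m * sg a := by
      rw [div_le_iff₀ (by linarith)]
      have : 1 ≤ m * (1 - (0.21 * a ^ 2 + 0.01) * sg a ^ 2 / 2) :=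
        hm.trans (mul_le_mul_of_nonneg_left (by linarith) hm0.le)
      nlinarith
    linarith
  · calc a * sg a ^ 2 = (a * sg a) * sg a := by ring
      _ ≤ k * s := by gcongr; linarith

lemma constA {a : ℝ} (ha : 5.5 ≤ a) : (0.21 * a ^ 2 + 0.01) * sg a ^ 2 / 2 ≤ 0.3109 ∧
    sg a + kp a ≤ 0.7673 ∧ kp a - sg a ≤ 0.1421 ∧ a * sg a ^ 2 ≤ 0.5375 ∧
    sg a ^ 2 ≤ 0.0978 := by
  have h := sg_bd (s := 0.3126) (k := 1.7192) (by norm_num) ha (by norm_num) (by norm_num)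
  obtain ⟨h1, h2, h3⟩ := kp_bd (c := 0.3109) (m := 1.4512) (by linarith) h (by norm_num)
    (by norm_num) (by norm_num)
  obtain ⟨h4, h5, -⟩ := h
  refine ⟨h1, by linarith, by linarith, by linarith, by nlinarith⟩

lemma constB {a : ℝ} (ha : 14 ≤ a) : sg a + kp a ≤ 0.227 ∧ a * sg a ^ 2 ≤ 0.1401 := by
  have h := sg_bd (s := 0.10001) (k := 1.4002) (by norm_num) ha (by norm_num) (by norm_num)
  obtain ⟨h1, h2, h3⟩ := kp_bd (c := 0.206) (m := 1.2595) (by linarith) h (by norm_num)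
    (by norm_num) (by norm_num)
  obtain ⟨h4, h5, -⟩ := h
  exact ⟨by linarith, by linarith⟩

/-- The size of the dominant zero. -/
lemma sq_bd {a a₀ x b σ b₀ m e D : ℝ} (h0 : 5 ≤ a₀) (ha : a₀ ≤ a) (hx : 0 < x) (hb : 0 ≤ b)
    (hb0 : b ≤ b₀) (hm : a * σ ^ 2 ≤ m)
    (h : a ≤ x → (1 + 3.6 * (x - a)) * (1 - b ^ 2 * σ ^ 2 / 2 - 0.0045 / a) ≤ 1)
    (he : (b₀ ^ 2 * m / 2 + 0.0045) * a₀ ≤ 3.6 * e * (a₀ - (b₀ ^ 2 * m / 2 + 0.0045)))
    (he0 : b₀ ^ 2 * m / 2 + 0.0045 ≤ 1) (he1 : e ≤ 0.1) (he2 : 0 ≤ e)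
    (hD : 2 * e + 0.0004 + b₀ ^ 2 ≤ D) : x ^ 2 + b ^ 2 ≤ a ^ 2 + D := by
  have hb2 : b ^ 2 ≤ b₀ ^ 2 := by gcongr
  rcases le_total x a with h1 | h1
  · nlinarith
  have ha0 : 0 < a := by linarith
  have h2 := h h1
  set η := b ^ 2 * σ ^ 2 / 2 + 0.0045 / a with hη
  set E := b₀ ^ 2 * m / 2 + 0.0045 with hE
  have h3 : a * η ≤ E := by
    have : a * η = b ^ 2 * (a * σ ^ 2) / 2 + 0.0045 := by rw [hη]; field_simp
    have h4 : b ^ 2 * (a * σ ^ 2) ≤ b₀ ^ 2 * m := by gcongr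
    rw [this, hE]; linarith
  have hη0 : 0 ≤ η := by positivity
  have h4 : a₀ * η ≤ E := le_trans (by gcongr) h3
  set d := x - a with hd
  have hd0 : 0 ≤ d := by linarith
  have h5 : 3.6 * d * (1 - η) ≤ η := by
    have : 1 - b ^ 2 * σ ^ 2 / 2 - 0.0045 / a = 1 - η := by rw [hη]; ring
    rw [this] at h2; linarith
  have h6 : 3.6 * (a * d) * (a₀ - E) ≤ E * a₀ := by
    have h7 : 3.6 * (a * d) * (a₀ - E) ≤ 3.6 * (a * d) * (a₀ * (1 - η)) := by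
      gcongr; linarith
    have h8 : a * a₀ * (3.6 * d * (1 - η)) ≤ a * a₀ * η := by gcongr
    have h9 : a * η * a₀ ≤ E * a₀ := by gcongr
    linarith
  have h7 : a * d ≤ e := by
    have := h6.trans he
    have h8 : 0 < a₀ - E := by linarith
    nlinarith
  have h8 : d ≤ 0.02 := by nlinarith
  have : x = a + d := by rw [hd]; ring
  rw [this]; nlinarith

lemma pow_le_exp {r₁ r E : ℝ} {n : ℕ} (h1 : 0 ≤ r₁) (hr : 0 < r)
    (h : 2 * E * r ^ 2 ≤ n * (r ^ 2 - r₁ ^ 2)) : (r₁ / r) ^ n ≤ exp (-E) := by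
  have h2 : r₁ / r ≤ exp (-((1 - (r₁ / r) ^ 2) / 2)) := by
    nlinarith [Real.add_one_le_exp (-((1 - (r₁ / r) ^ 2) / 2)), sq_nonneg (r₁ / r - 1)]
  calc (r₁ / r) ^ n ≤ exp (-((1 - (r₁ / r) ^ 2) / 2)) ^ n := by gcongr
    _ = exp (n * -((1 - (r₁ / r) ^ 2) / 2)) := (Real.exp_nat_mul _ _).symm
    _ ≤ exp (-E) := by
      apply exp_le_exp.2
      have e : 1 - (r₁ / r) ^ 2 = (r ^ 2 - r₁ ^ 2) / r ^ 2 := by field_simp
      have : 2 * E ≤ n * ((r ^ 2 - r₁ ^ 2) / r ^ 2) := by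
        rw [← mul_div_assoc, le_div_iff₀ (by positivity)]; exact h
      rw [e]; linarith

lemma gap {a N q P K : ℝ} (hN : 200 ≤ N) (h1 : q ≤ a ^ 2 + 1.1) (h2 : 14 ≤ a → q ≤ a ^ 2 + 0.725)
    (hP : 5.5 ≤ P) (hK : K ≤ N) (hK' : a ≤ 14 → K ≤ 143) :
    K * (P - 0.735) ≤ N * (a ^ 2 - 0.01 + P - q) := by
  rcases le_total a 14 with h | h
  · have := hK' h
    calc K * (P - 0.735) ≤ 143 * (P - 0.735) := by gcongr; linarith
      _ ≤ 200 * (P - 1.11) := by linarith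
      _ ≤ N * (a ^ 2 - 0.01 + P - q) := mul_le_mul hN (by linarith) (by linarith) (by linarith)
  · have := h2 h
    calc K * (P - 0.735) ≤ N * (P - 0.735) := by gcongr; linarith
      _ ≤ N * (a ^ 2 - 0.01 + P - q) := mul_le_mul_of_nonneg_left (by linarith) (by linarith)

lemma exp_one_bd {H : ℝ} (hH : 2.355 ≤ H) :
    (H + 0.17) * exp (-(0.349 * (H ^ 2 - 0.735))) ≤ 0.48 := by
  have h1 : (5.3 : ℝ) ≤ exp 1.679 :=
    le_trans (by norm_num [Finset.sum_range_succ, Nat.factorial])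
      (Real.sum_le_exp_of_nonneg (by norm_num) 7)
  have h2 := Real.add_one_le_exp (0.349 * (H ^ 2 - 0.735) - 1.679)
  have h3 : exp (0.349 * (H ^ 2 - 0.735)) =
      exp 1.679 * exp (0.349 * (H ^ 2 - 0.735) - 1.679) := by rw [← exp_add]; congr 1; ring
  have h4 : 5.3 * (0.349 * (H ^ 2 - 0.735) - 1.679 + 1) ≤ exp (0.349 * (H ^ 2 - 0.735)) := by
    rw [h3]; gcongr; nlinarith
  rw [exp_neg, ← div_eq_mul_inv, div_le_iff₀ (exp_pos _)]
  nlinarith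

lemma exp_two_bd {H : ℝ} {j : ℕ} (hH : 0.7584 * (2 * (j + 2) + 1) ≤ H) :
    (H + 0.17) * exp (-(0.2975 * (H ^ 2 - 0.735))) ≤ 3.2 * 0.15 ^ (j + 2) := by
  have hj : (0 : ℝ) ≤ j := j.cast_nonneg
  have h1 : (56 : ℝ) ≤ exp 4.059 :=
    le_trans (by norm_num [Finset.sum_range_succ, Nat.factorial])
      (Real.sum_le_exp_of_nonneg (by norm_num) 10)
  have h2 := Real.add_one_le_exp (0.256 * (H - 3.792))
  have h3 : (1 / 0.15 : ℝ) ^ j ≤ exp (j * 3) := by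
    rw [Real.exp_nat_mul]; gcongr
    exact le_trans (by norm_num) (Real.quadratic_le_exp_of_nonneg (by norm_num))
  have h4 : exp 4.059 * exp (0.256 * (H - 3.792)) * exp (j * 3) ≤
      exp (0.2975 * (H ^ 2 - 0.735)) := by
    rw [← exp_add, ← exp_add]; apply exp_le_exp.2; nlinarith
  have h5 : 56 * (0.256 * (H - 3.792) + 1) * (1 / 0.15 : ℝ) ^ j ≤
      exp (0.2975 * (H ^ 2 - 0.735)) := by
    refine le_trans ?_ h4; gcongr; linarith
  have h6 : (0.15 : ℝ) ^ j * (1 / 0.15 : ℝ) ^ j = 1 := by rw [← mul_pow]; norm_num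
  have h7 : (0 : ℝ) < 0.15 ^ j := by positivity
  have h8 := mul_le_mul_of_nonneg_left h5 h7.le
  have h9 : 0.15 ^ j * (56 * (0.256 * (H - 3.792) + 1) * (1 / 0.15 : ℝ) ^ j) =
      56 * (0.256 * (H - 3.792) + 1) := by
    rw [mul_left_comm, h6, mul_one]
  rw [exp_neg, ← div_eq_mul_inv, div_le_iff₀ (exp_pos _), pow_add]
  nlinarith

/-- The contribution of one subdominant zero. -/
lemma per {a r₁ r H : ℝ} {n i : ℕ} (ha : 5.5 ≤ a) (hn : 200 ≤ n) (hna : 18 * a ^ 2 ≤ 25 * n)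
    (h0 : 0 ≤ r₁) (h1 : r₁ ^ 2 ≤ a ^ 2 + 1.1) (h2 : 14 ≤ a → r₁ ^ 2 ≤ a ^ 2 + 0.725)
    (hr : 0 < r) (hl : a ^ 2 - 0.01 + H ^ 2 ≤ r ^ 2) (hu : r ≤ 1.1 * a) (hH : 2.355 ≤ H)
    (hi : i ≠ 0) (hi1 : 3.2327 * H ≤ (2 * i + 1) * π) (hi2 : (2 * i + 1) * π ≤ 4.1422 * H) :
    (H + 0.17) * (r₁ / r) ^ n ≤ 3.2 * 0.15 ^ i := by
  have hN : (200 : ℝ) ≤ n := by exact_mod_cast hn
  have hP : 5.5 ≤ H ^ 2 := by nlinarith
  rcases Nat.lt_or_ge i 2 with h | h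
  · obtain rfl : i = 1 := by omega
    have hH' : H ≤ 2.92 := by push_cast at hi1; linarith [Real.pi_lt_d4]
    have hP' : H ^ 2 ≤ 8.53 := by nlinarith
    have g := gap (K := 0.698 * (a ^ 2 + 8.53)) hN h1 h2 hP (by linarith) (fun h => by nlinarith)
    have k : (r₁ / r) ^ n ≤ exp (-(0.349 * (H ^ 2 - 0.735))) := by
      apply pow_le_exp h0 hr
      have e1 : 0 ≤ (n - 0.698 * (H ^ 2 - 0.735)) * (r ^ 2 - (a ^ 2 - 0.01 + H ^ 2)) :=
        mul_nonneg (by linarith) (by linarith)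
      have e2 : 0 ≤ (H ^ 2 - 0.735) * (8.54 - H ^ 2) := mul_nonneg (by linarith) (by linarith)
      nlinarith
    calc (H + 0.17) * (r₁ / r) ^ n ≤ (H + 0.17) * exp (-(0.349 * (H ^ 2 - 0.735))) := by gcongr
      _ ≤ 0.48 := exp_one_bd hH
      _ = 3.2 * 0.15 ^ 1 := by norm_num
  · obtain ⟨j, rfl⟩ : ∃ j, i = j + 2 := ⟨i - 2, by omega⟩
    have hj : (0 : ℝ) ≤ j := j.cast_nonneg
    have g := gap (K := 0.72 * a ^ 2) hN h1 h2 hP (by linarith) (fun h => by nlinarith)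
    have k : (r₁ / r) ^ n ≤ exp (-(0.2975 * (H ^ 2 - 0.735))) := by
      apply pow_le_exp h0 hr
      have e0 : r ^ 2 ≤ (1.1 * a) ^ 2 := by gcongr
      have e1 : 0 ≤ n * (r ^ 2 - (a ^ 2 - 0.01 + H ^ 2)) := mul_nonneg (by linarith) (by linarith)
      have e2 : 0 ≤ (H ^ 2 - 0.735) * (0.72 * a ^ 2 - 0.595 * r ^ 2) :=
        mul_nonneg (by linarith) (by nlinarith)
      nlinarith
    calc (H + 0.17) * (r₁ / r) ^ n ≤ (H + 0.17) * exp (-(0.2975 * (H ^ 2 - 0.735))) := by gcongr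
      _ ≤ 3.2 * 0.15 ^ (j + 2) := exp_two_bd (by
        push_cast at hi2
        nlinarith [Real.pi_gt_d4])

lemma decay {p : ℝ} (h0 : 0 ≤ p) (h1 : p ≤ 0.99) {n : ℕ} (hn : 200 ≤ n) :
    (n : ℝ) * (n + 1) * p ^ n ≤ 200 * 201 * p ^ 200 := by
  induction n, hn using Nat.le_induction with
  | base => norm_num
  | succ m hm ih =>
    refine le_trans ?_ ih
    have hm' : (200 : ℝ) ≤ m := by exact_mod_cast hm
    have h2 : ((m : ℝ) + 2) * p ≤ m := by nlinarith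
    have h3 : 0 ≤ ((m : ℝ) + 1) * p ^ m := by positivity
    have := mul_le_mul_of_nonneg_left h2 h3
    push_cast
    rw [pow_succ]
    nlinarith

lemma tail {a r₁ : ℝ} {n : ℕ} (ha : 5.5 ≤ a) (hn : 200 ≤ n) (hna : 18 * a ^ 2 ≤ 25 * n)
    (h0 : 0 ≤ r₁) (h1 : r₁ ^ 2 ≤ a ^ 2 + 1.1) :
    22 * a ^ 2 * (n + 1) * (r₁ / (1.1 * a)) ^ n ≤ 0.05 := by
  have hN : (200 : ℝ) ≤ n := by exact_mod_cast hn
  have key : ∀ p c : ℝ, 0 ≤ p → p ≤ 0.99 → 0 ≤ c → a ^ 2 ≤ c * n →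
      a ^ 2 + 1.1 ≤ (p * (1.1 * a)) ^ 2 → 22 * c * (200 * 201 * p ^ 200) ≤ 0.05 →
      22 * a ^ 2 * (n + 1) * (r₁ / (1.1 * a)) ^ n ≤ 0.05 := by
    intro p c hp hp1 hc hac hr hv
    have h2 : r₁ / (1.1 * a) ≤ p := by
      rw [div_le_iff₀ (by positivity)]
      exact (pow_le_pow_iff_left₀ h0 (by positivity) two_ne_zero).1 (h1.trans hr)
    calc 22 * a ^ 2 * (n + 1) * (r₁ / (1.1 * a)) ^ n ≤ 22 * (c * n) * (n + 1) * p ^ n := by gcongr
      _ = 22 * c * (n * (n + 1) * p ^ n) := by ring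
      _ ≤ 22 * c * (200 * 201 * p ^ 200) :=
        mul_le_mul_of_nonneg_left (decay hp hp1 hn) (by positivity)
      _ ≤ 0.05 := hv
  rcases le_total a 7.5 with h | h
  · exact key 0.9256 0.28125 (by norm_num) (by norm_num) (by norm_num) (by nlinarith)
      (by nlinarith) (by norm_num)
  · exact key 0.918 (25 / 18) (by norm_num) (by norm_num) (by norm_num) (by linarith)
      (by nlinarith) (by norm_num)

lemma geom {S : Finset ℂ} {ι : ℂ → ℕ} (hι : Set.InjOn ι S) {z : ℂ} (hz : z ∈ S) (h0 : ι z = 0) :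
    ∑ ρ ∈ S.erase z, (0.15 : ℝ) ^ ι ρ ≤ 0.1765 := by
  classical
  have h1 := Finset.add_sum_erase S (fun ρ => (0.15 : ℝ) ^ ι ρ) hz
  have h2 : ∑ ρ ∈ S, (0.15 : ℝ) ^ ι ρ = ∑ i ∈ S.image ι, (0.15 : ℝ) ^ i :=
    (Finset.sum_image (f := fun i => (0.15 : ℝ) ^ i) hι).symm
  have h3 := (summable_geometric_of_lt_one (r := (0.15 : ℝ)) (by norm_num) (by norm_num)).sum_le_tsum
    (S.image ι) (fun i _ => by positivity)
  rw [tsum_geometric_of_lt_one (by norm_num) (by norm_num)] at h3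
  simp only [h0, pow_zero] at h1
  norm_num at h1 h2 h3 ⊢
  linarith

lemma sum_conj {S : Finset ℂ} (hS : ∀ z ∈ S, 0 < z.im) {F : ℂ → ℝ}
    (hF : ∀ z, F (starRingEnd ℂ z) = F z) :
    ∑ ρ ∈ S ∪ S.image (starRingEnd ℂ), F ρ = 2 * ∑ ρ ∈ S, F ρ := by
  rw [Finset.sum_union, Finset.sum_image (fun x _ y _ h => (starRingEnd ℂ).injective h)]
  · simp only [hF]; ring
  · rw [Finset.disjoint_left]
    intro z hz hz'
    obtain ⟨w, hw, rfl⟩ := Finset.mem_image.1 hz'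
    have h1 := hS _ hz
    have h2 := hS _ hw
    rw [Complex.conj_im] at h1
    linarith

lemma norm_sq_eq (z : ℂ) : ‖z‖ ^ 2 = z.re ^ 2 + z.im ^ 2 := by
  rw [Complex.sq_norm, Complex.normSq_apply]; ring

/-- Module D2. -/
theorem small (hM : MeasStmt) (hC : CoreStmt) (hB : BoxStmt) : SmallStmt := by
  intro y a n hy hy1 ha hI hn hna
  obtain ⟨B1, B2, B3, ⟨ι, hι, B4⟩, B5, -⟩ := hB y a hy hy1 ha hI
  obtain ⟨z₁, s1, s2, g, -, hf, hg⟩ := strip hy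
  obtain ⟨cA1, cA2, cA3, cA4, cA5⟩ := constA ha
  have hβ1 := hM.bet_ge y hy
  have hβ2 := hM.bet_le y hy
  have hy2 : y ≤ 0.000001 := hy1.trans (by norm_num)
  have hs1 := one_lt_sqrt hy
  have hs2 := sqrt_lt hy
  have hp1 := Real.pi_gt_d4
  have hp2 := Real.pi_lt_d4
  have ha0 : 0 < a := by linarith
  have hd1 : 0.0045 / a ≤ 0.00082 := by rw [div_le_iff₀ ha0]; linarith
  have hd2 : 0.005 / a ≤ 0.00091 := by rw [div_le_iff₀ ha0]; linarith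
  have hb0 : 0 < z₁.im := by
    by_contra h
    nlinarith
  have hb1 : 0.785 ≤ z₁.im := by nlinarith
  have hb2 : z₁.im ≤ 1.95 := by nlinarith
  have hz0 : z₁ ≠ 0 := by rintro rfl; simp at hb0
  have hz1 : M y z₁ = 0 := by rw [hf, div_self hz0]; simp
  have hx0 : 0 < z₁.re := B3 _ hz1 (by rw [abs_of_pos hb0]; linarith)
  -- all other zeros are far from the real axis
  have far : ∀ z : ℂ, M y z = 0 → z ≠ z₁ → z ≠ starRingEnd ℂ z₁ → 2.355 ≤ |z.im| := by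
    intro z hz h1 h2
    by_contra h
    refine hg z ?_ ?_
    · rw [abs_mul, abs_of_pos (by linarith : 0 < 2 * √(1 + y))]
      nlinarith [abs_nonneg z.im]
    · rw [hf] at hz
      refine (mul_eq_zero.1 hz).resolve_left (mul_ne_zero ?_ ?_)
      · rw [sub_ne_zero, ne_comm, Ne, div_eq_one_iff_eq hz0]; exact h1
      · rw [sub_ne_zero, ne_comm, Ne, div_eq_one_iff_eq (by simpa using hz0)]; exact h2
  have hR1 : ‖z₁‖ ≤ 1.1 * a := by
    refine (pow_le_pow_iff_left₀ (norm_nonneg _) (by positivity) two_ne_zero).1 ?_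
    rw [norm_sq_eq]
    have hb3 : z₁.im ^ 2 ≤ 1.95 ^ 2 := by gcongr
    rcases le_total z₁.re a with h | h
    · nlinarith
    · have h1 := B1 _ hz1 h
      have h2 : z₁.im ^ 2 * sg a ^ 2 ≤ 1.95 ^ 2 * 0.0978 := by gcongr
      have h3 : (1 + 3.6 * (z₁.re - a)) * 0.81 ≤ 1 :=
        le_trans (mul_le_mul_of_nonneg_left (by linarith) (by linarith)) h1
      have h4 : z₁.re ^ 2 ≤ (a + 0.07) ^ 2 := by gcongr; linarith
      nlinarith
  -- the index bounds with numerical constants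
  have B4' : ∀ z : ℂ, ‖z‖ ≤ 1.1 * a → M y z = 0 → 0 < z.im →
      3.2327 * z.im ≤ (2 * ι z + 1) * π ∧ (2 * ι z + 1) * π ≤ 4.1422 * z.im := by
    intro z h1 h2 h3
    obtain ⟨h4, h5⟩ := B4 z h1 h2 h3
    exact ⟨le_trans (mul_le_mul_of_nonneg_right (by linarith) h3.le) h4,
      h5.trans (mul_le_mul_of_nonneg_right (by linarith) h3.le)⟩
  have hι0 : ι z₁ = 0 := by
    by_contra h
    have h1 : (1 : ℝ) ≤ ι z₁ := by exact_mod_cast Nat.one_le_iff_ne_zero.2 h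
    nlinarith [(B4' _ hR1 hz1 hb0).2]
  have hb3 : z₁.im ≤ 0.9719 := by
    have := (B4' _ hR1 hz1 hb0).1
    rw [hι0] at this; push_cast at this; linarith
  have hq1 : ‖z₁‖ ^ 2 ≤ a ^ 2 + 1.1 := by
    rw [norm_sq_eq]
    exact sq_bd (a₀ := 5.5) (e := 0.0754) (by norm_num) ha hx0 hb0.le hb3 cA4 (B1 _ hz1)
      (by norm_num) (by norm_num) (by norm_num) (by norm_num) (by norm_num)
  have hq2 : 14 ≤ a → ‖z₁‖ ^ 2 ≤ a ^ 2 + 0.725 := by
    intro h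
    obtain ⟨cB1, cB2⟩ := constB h
    have hb4 : z₁.im ≤ 0.8327 := by
      have h1 := (B4 _ hR1 hz1 hb0).1
      have h2 : 3.773 * z₁.im ≤ (bet y - sg a - kp a) * z₁.im :=
        mul_le_mul_of_nonneg_right (by linarith) hb0.le
      rw [hι0] at h1; push_cast at h1; linarith
    rw [norm_sq_eq]
    exact sq_bd (a₀ := 14) (e := 0.015) (by norm_num) h hx0 hb0.le hb4 cB2 (B1 _ hz1)
      (by norm_num) (by norm_num) (by norm_num) (by norm_num) (by norm_num)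
  -- real parts of the zeros in the disc
  have box : ∀ z : ℂ, ‖z‖ ≤ 1.1 * a → M y z = 0 →
      a - 0.001 ≤ z.re ∧ z.re ≤ a + 0.126 ∧ a ^ 2 - 0.01 + z.im ^ 2 ≤ ‖z‖ ^ 2 := by
    intro z h1 h2
    have h3 := (B2 z h1 h2).1
    have h4 : (a - 0.005 / a) ^ 2 ≤ z.re ^ 2 := by gcongr; linarith
    have h5 : a ^ 2 - 0.01 ≤ (a - 0.005 / a) ^ 2 := by
      have : a * (0.005 / a) = 0.005 := by field_simp
      nlinarith [sq_nonneg (0.005 / a)]
    have h6 := norm_sq_eq z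
    refine ⟨by linarith, ?_, by linarith⟩
    rcases le_total z.re a with h | h
    · linarith
    · have h7 := B1 _ h2 h
      have h8 : ‖z‖ ^ 2 ≤ (1.1 * a) ^ 2 := by gcongr
      have h9 : z.im ^ 2 * sg a ^ 2 ≤ (0.21 * a ^ 2 + 0.01) * sg a ^ 2 := by gcongr; linarith
      have h10 : (1 + 3.6 * (z.re - a)) * 0.688 ≤ 1 :=
        le_trans (mul_le_mul_of_nonneg_left (by linarith) (by linarith)) h7
      linarith
  -- the finite set of zeros in the upper half disc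
  have hfin : {z : ℂ | ‖z‖ ≤ 1.1 * a ∧ M y z = 0 ∧ 0 < z.im}.Finite := by
    refine Set.Finite.of_finite_image ((Set.finite_le_nat ⌈a⌉₊).subset ?_) hι
    rintro _ ⟨z, ⟨h1, h2, h3⟩, rfl⟩
    have h4 := (B4' z h1 h2 h3).2
    have h5 : z.im ≤ ‖z‖ := Complex.im_le_norm z
    have h6 : (0 : ℝ) ≤ ι z := Nat.cast_nonneg _
    have h7 : (ι z : ℝ) ≤ ⌈a⌉₊ := le_trans (by nlinarith) (Nat.le_ceil a)
    exact_mod_cast h7
  set S := hfin.toFinset.erase z₁ with hS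
  have hmem : ∀ z, z ∈ S ↔ z ≠ z₁ ∧ ‖z‖ ≤ 1.1 * a ∧ M y z = 0 ∧ 0 < z.im := by
    intro z; simp [hS]
  have hne : ∀ z : ℂ, 0 < z.im → z ≠ starRingEnd ℂ z₁ := by
    rintro z h rfl
    rw [Complex.conj_im] at h; linarith
  have hH : ∀ z ∈ S, 2.355 ≤ z.im := by
    intro z hz
    obtain ⟨h1, -, h3, h4⟩ := (hmem z).1 hz
    simpa [abs_of_pos h4] using far z h3 h1 (hne z h4)
  have hbig : ∀ z ∈ S, 5.97 ≤ ‖z‖ ∧ ‖z₁‖ ≤ ‖z‖ := by
    intro z hz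
    obtain ⟨-, h2, h3, -⟩ := (hmem z).1 hz
    have h5 := (box z h2 h3).2.2
    have h6 := hH z hz
    constructor <;>
      refine (pow_le_pow_iff_left₀ (by positivity) (norm_nonneg _) two_ne_zero).1 ?_ <;> nlinarith
  have hsum : ∑ ρ ∈ S, (ρ.im + 0.17) * (‖z₁‖ / ‖ρ‖) ^ n ≤ 0.565 := by
    have h1 := geom (S := hfin.toFinset) (ι := ι) (by simpa using hι) (z := z₁)
      (by simp [hR1, hz1, hb0]) hι0
    have h2 : ∑ ρ ∈ S, (ρ.im + 0.17) * (‖z₁‖ / ‖ρ‖) ^ n ≤ ∑ ρ ∈ S, 3.2 * (0.15 : ℝ) ^ ι ρ := by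
      refine Finset.sum_le_sum fun z hz => ?_
      obtain ⟨h1, h2, h3, h4⟩ := (hmem z).1 hz
      refine per ha hn hna (norm_nonneg _) hq1 hq2 (by linarith [(hbig z hz).1]) (box z h2 h3).2.2
        h2 (hH z hz) (fun h => h1 (hι ⟨h2, h3, h4⟩ ⟨hR1, hz1, hb0⟩ (h.trans hι0.symm)))
        (B4' z h2 h3 h4).1 (B4' z h2 h3 h4).2
    rw [← Finset.mul_sum] at h2
    rw [← hS] at h1
    linarith
  have hs1 : ∑ ρ ∈ S, (‖ρ - z₁.re‖ + z₁.im ^ 2 / ‖ρ‖) * (‖z₁‖ / ‖ρ‖) ^ n ≤ 0.565 := by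
    refine le_trans (Finset.sum_le_sum fun z hz => ?_) hsum
    obtain ⟨-, h2, h3, -⟩ := (hmem z).1 hz
    obtain ⟨k1, k2, -⟩ := box z h2 h3
    obtain ⟨k3, k4, -⟩ := box z₁ hR1 hz1
    have k5 := hH z hz
    have k6 := (hbig z hz).1
    have e1 : ‖z - z₁.re‖ ≤ z.im + 0.004 := by
      refine (pow_le_pow_iff_left₀ (norm_nonneg _) (by linarith) two_ne_zero).1 ?_
      rw [norm_sq_eq]
      simp only [Complex.sub_re, Complex.sub_im, Complex.ofReal_re, Complex.ofReal_im, sub_zero]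
      have : (z.re - z₁.re) ^ 2 ≤ 0.127 ^ 2 := sq_le_sq' (by linarith) (by linarith)
      nlinarith
    have e2 : z₁.im ^ 2 / ‖z‖ ≤ 0.166 := by
      rw [div_le_iff₀ (by linarith)]; nlinarith
    exact mul_le_mul_of_nonneg_right (by linarith) (by positivity)
  have hs2 : ∑ ρ ∈ S, (‖z₁‖ / ‖ρ‖) ^ n ≤ 0.224 := by
    have : 2.525 * ∑ ρ ∈ S, (‖z₁‖ / ‖ρ‖) ^ n ≤ 0.565 := by
      rw [Finset.mul_sum]
      refine le_trans (Finset.sum_le_sum fun z hz => ?_) hsum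
      exact mul_le_mul_of_nonneg_right (by linarith [hH z hz]) (by positivity)
    linarith
  have ht := tail ha hn hna (norm_nonneg z₁) hq1
  have hpos : ∀ z ∈ S, 0 < z.im := fun z hz => by linarith [hH z hz]
  refine hC y n 0 (1.1 * a) (5 * a) z₁ (S ∪ S.image (starRingEnd ℂ)) hy (by omega) (by positivity)
    (by positivity) hb0 hz1 hR1 (fun z hz => by simpa using B5 z hz) ?_ ?_ ?_
  · intro ρ hρ
    rcases Finset.mem_union.1 hρ with h | h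
    · obtain ⟨h1, h2, h3, h4⟩ := (hmem ρ).1 h
      exact ⟨h3, (hbig ρ h).2, h2, h1, hne ρ h4⟩
    · obtain ⟨z, hz, rfl⟩ := Finset.mem_image.1 h
      obtain ⟨h1, h2, h3, h4⟩ := (hmem z).1 hz
      refine ⟨by rw [M_conj, h3, map_zero], by simpa using (hbig z hz).2, by simpa using h2, ?_,
        fun h => h1 ((starRingEnd ℂ).injective h)⟩
      intro h
      exact hne z h4 (by rw [← h, Complex.conj_conj])
  · intro z hz h0
    refine ⟨?_, (B2 z hz.le h0).2⟩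
    by_cases h1 : z = z₁
    · exact Or.inl h1
    by_cases h2 : z = starRingEnd ℂ z₁
    · exact Or.inr (Or.inl h2)
    refine Or.inr (Or.inr (Finset.mem_union.2 ?_))
    have h3 := far z h0 h1 h2
    rcases lt_or_ge 0 z.im with h | h
    · exact Or.inl ((hmem z).2 ⟨h1, hz.le, h0, h⟩)
    · refine Or.inr (Finset.mem_image.2 ⟨starRingEnd ℂ z, (hmem _).2 ⟨?_, by simpa using hz.le,
        by rw [M_conj, h0, map_zero], ?_⟩, Complex.conj_conj z⟩)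
      · intro h4
        exact h2 (by rw [← h4, Complex.conj_conj])
      · rw [abs_of_nonpos h] at h3
        rw [Complex.conj_im]; linarith
  · rw [sum_conj hpos, sum_conj hpos]
    · have e : 4 * (1.1 * a) * (n + 1) * (5 * a) * (‖z₁‖ / (1.1 * a)) ^ n =
          22 * a ^ 2 * (n + 1) * (‖z₁‖ / (1.1 * a)) ^ n := by ring
      have h1 : 0 ≤ (n + 1) * (5 * a) * (‖z₁‖ / (1.1 * a)) ^ n := by positivity
      have h2 : (n + 1) * (5 * a) * (‖z₁‖ / (1.1 * a)) ^ n ≤ 0.0021 := by nlinarith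
      rw [e]
      nlinarith
    · intro z; simp
    · intro z
      rw [Complex.norm_conj, ← Complex.conj_ofReal z₁.re, ← map_sub, Complex.norm_conj,
        Complex.conj_ofReal]

end Pool.Agent.MP_dbd6a6_co.H53
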